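import Mathlib
import Pool.Agent.R120.SmallIndGrowth

set_option autoImplicit false

/-! Sum closed classes whose indecomposables grow with a rate between `1` and `φ`.

Take an even `k` and the increasing oscillations (their inversion graphs are paths) in which every
`k`-th point is replaced by two points forming `12` or `21`. Let `C` consist of the permutations
all of whose indecomposable patterns are contained in such a decorated oscillation. An
indecomposable member of length `n` occupies an interval of the path, so there are at most
`k (n + k) 3^(n/k + 2)` of them; and there are at least `2^M` of length `(k+1) M`. -/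

namespace Pool.Agent.Results.MP_9e0f03_co.BelowGoldenRatio

open Pool.Agent.R120 Pool.Agent.R120.Antichain Pool.Agent.R120.SumClass

/-- For every real `β > 1` there is a sum closed permutation class `C` such that the upper growth
rate of its set of indecomposable members is larger than `1` and smaller than `β`; in particular
this holds with `β` the golden ratio `φ`. -/
theorem result :
    (∀ β : ℝ, 1 < β → ∃ C : Set AllPerms, IsClass C ∧ SumClosed C ∧
      1 < upperGrowth (ind C) ∧ upperGrowth (ind C) < ENNReal.ofReal β) ∧
    ∃ C : Set AllPerms, IsClass C ∧ SumClosed C ∧
      1 < upperGrowth (ind C) ∧ upperGrowth (ind C) < ENNReal.ofReal ((1 + √5) / 2) := by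
  refine ⟨Pool.Agent.R120.SmallInd.main, Pool.Agent.R120.SmallInd.main _ ?_⟩
  have : (1 : ℝ) < √5 := by
    rw [Real.lt_sqrt (by norm_num)]
    norm_num
  linarith

end Pool.Agent.Results.MP_9e0f03_co.BelowGoldenRatio
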